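import Pool.Agent.Helper50.RI.CQAn

/-!
# Project RF, packet CQ: `P` stays the curvature operator
-/

namespace Pool.Agent.Helper50.RI

open Set Filter Topology Pool.Agent.Helper36.RS Pool.Agent.Helper36.RI Pool.Agent.Helper73.RF
open Pool.Agent.Helper47.RF hiding eps
open scoped ContDiff

section

variable {τ : ℝ}

/-- points of `{q = 1}` -/
abbrev Yt (τ : ℝ) : Type := {p : ℝ × HH // p.1 ∈ Ioo 0 τ ∧ p.2 ≠ 0}

theorem mem_pt (y : Yt τ) : ((y.1.2, 1, y.1.1) : W) ∈ Pool.Agent.Helper73.RF.Om τ :=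
  ⟨y.2.2, one_ne_zero, y.2.1.1, y.2.1.2⟩

/-- evaluation at a point -/
noncomputable def rho (y : Yt τ) : (baC τ).B →ₐ[ℝ] ℝ :=
  ({ toFun := fun f => f.1 ⟨_, mem_pt y⟩
     map_one' := rfl
     map_mul' := fun _ _ => rfl
     map_zero' := rfl
     map_add' := fun _ _ => rfl
     commutes' := fun _ => rfl } : BB τ →ₐ[ℝ] ℝ)

theorem rho_eq (y : Yt τ) (f : (baC τ).B) : rho y f = at1 f y.1.1 y.1.2 :=
  (exT_of_mem _ (mem_pt y)).symm

theorem rho_emb (y : Yt τ) {u : ℝ → HH → ℝ} (hu : JS τ u) : rho y (emb u hu) = u y.1.1 y.1.2 :=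
  rfl

/-- the coefficient algebra -/
noncomputable def SB (τ : ℝ) : Subalgebra ℝ (baC τ).B where
  carrier := {f | ∃ g, SmFam (Icc 0 τ) g ∧ ∀ y : Yt τ, rho y f = g y.1.1 y.1.2}
  mul_mem' := by
    rintro f f' ⟨g, hg, h⟩ ⟨g', hg', h'⟩
    exact ⟨_, (c8 _).2.2.2.1 _ _ hg hg', fun y => by rw [map_mul, h, h']⟩
  add_mem' := by
    rintro f f' ⟨g, hg, h⟩ ⟨g', hg', h'⟩
    exact ⟨_, (c8 _).2.1 _ _ hg hg', fun y => by rw [map_add, h, h']⟩
  algebraMap_mem' r := ⟨fun _ _ => r, (c8 _).1 (fun _ => r) continuousOn_const,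
    fun y => (rho y).commutes r⟩

theorem SB_of {f : (baC τ).B} {u : ℝ → XS} (hu : SmC τ u)
    (h : ∀ y : Yt τ, rho y f = (u y.1.1).1 y.1.2) : f ∈ SB τ := ⟨_, hu, h⟩

theorem rho_E (hD6 : D6Stmt) (y : Yt τ) (i : Fin 3) (f : (baC τ).B) :
    rho y ((baC τ).E i f) = E i (at1 f y.1.1) y.1.2 := by
  rw [rho_eq]
  exact ((hD6 τ).2.1 f).2.2.1 i _ _ y.2.1.1 y.2.1.2 y.2.2

theorem SB_E (hD6 : D6Stmt) (i : Fin 3) {f : (baC τ).B} (hf : f ∈ SB τ) :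
    (baC τ).E i f ∈ SB τ := by
  obtain ⟨g, hg, h⟩ := hf
  refine ⟨fun t => E i (g t), (c8 _).2.2.2.2.2.1 _ i hg, fun y => ?_⟩
  rw [rho_E hD6]
  refine E_congr (fun x hx => ?_) i y.2.2
  rw [← h ⟨(y.1.1, x), y.2.1, hx⟩, rho_eq]

/-- bound -/
def bd (f : (baC τ).B) (K : ℝ) : Prop := ∀ y : Yt τ, |rho y f| ≤ K

theorem SB_bd {f : (baC τ).B} (hf : f ∈ SB τ) : ∀ᶠ K in atTop, bd f K := by
  obtain ⟨g, hg, h⟩ := hf
  obtain ⟨K, hK⟩ := fam_bdd hg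
  filter_upwards [eventually_ge_atTop K] with K' hK' y
  rw [h]
  exact (hK _ (Ioo_subset_Icc_self y.2.1) _ y.2.2).trans hK'

theorem at1_sm (hD6 : D6Stmt) (f : (baC τ).B) {t : ℝ} (ht : t ∈ Ioo 0 τ) : Sm (at1 f t) := by
  have h := ((hD6 τ).2.1 f).1
  refine ⟨?_, h.hom t ht.1 ht.2⟩
  have h2 : ContDiff ℝ inf (fun x : HH => (x, t)) := contDiff_id.prodMk contDiff_const
  exact h.cd.comp h2.contDiffOn (fun x hx => ⟨hx, ht.1, ht.2⟩)

/-- restriction to `q = 1` as a curve in `XS` -/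
noncomputable def toX (hD6 : D6Stmt) (f : (baC τ).B) (t : ℝ) : XS :=
  open Classical in if h : t ∈ Ioo 0 τ then ⟨at1 f t, at1_sm hD6 f h⟩ else 0

theorem toX_val (hD6 : D6Stmt) (f : (baC τ).B) {t : ℝ} (ht : t ∈ Ioo 0 τ) :
    (toX hD6 f t).1 = at1 f t := by
  rw [toX, dif_pos ht]

theorem toX_rho (hD6 : D6Stmt) (f : (baC τ).B) (y : Yt τ) :
    (toX hD6 f y.1.1).1 y.1.2 = rho y f := by
  rw [toX_val hD6 f y.2.1, rho_eq]

theorem toX_E (hD6 : D6Stmt) (f : (baC τ).B) (y : Yt τ) (i : Fin 3) :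
    E i (toX hD6 f y.1.1).1 y.1.2 = rho y ((baC τ).E i f) := by
  rw [toX_val hD6 f y.2.1, rho_E hD6]

theorem toX_cont (hD6 : D6Stmt) (f : (baC τ).B) :
    ContinuousOn (fun p : ℝ × HH => (toX hD6 f p.1).1 p.2) (Ioo 0 τ ×ˢ {0}ᶜ) := by
  have h := ((hD6 τ).2.1 f).1.cd.continuousOn
  have h2 : ContinuousOn (fun p : ℝ × HH => at1 f p.1 p.2) (Ioo 0 τ ×ˢ {0}ᶜ) :=
    h.comp (f := fun p : ℝ × HH => (p.2, p.1)) (by fun_prop)
      (fun p hp => ⟨hp.2, hp.1.1, hp.1.2⟩)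
  exact h2.congr fun p hp => by rw [toX_val hD6 f hp.1]

theorem toX_der (hD6 : D6Stmt) (f : (baC τ).B) {t : ℝ} (ht : t ∈ Ioo 0 τ) {x : HH} (hx : x ≠ 0) :
    HasDerivAt (fun s => (toX hD6 f s).1 x) ((toX hD6 ((baC τ).Dt f) t).1 x) t := by
  have h := ((hD6 τ).2.1 f).2.2.2 t x ht.1 ht.2 hx
  rw [toX_val hD6 _ ht]
  refine h.congr_of_eventuallyEq ?_
  filter_upwards [isOpen_Ioo.mem_nhds ht] with s hs
  rw [toX_val hD6 f hs]

theorem js_of {u : ℝ → XS}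
    (h : ContDiffOn ℝ oo (fun p : ℝ × HH => (u p.1).1 p.2) (Ioo 0 τ ×ˢ {0}ᶜ)) :
    JS τ (fun t => (u t).1) :=
  ⟨h.comp (contDiff_snd.prodMk contDiff_fst).contDiffOn (fun _ hp => ⟨⟨hp.2.1, hp.2.2⟩, hp.1⟩),
    fun t _ _ => (u t).2.hom⟩

theorem inv_comm {A θ : Fin 3 → Fin 3 → XS} (h : Inv A θ) {x : HH} (hx : x ≠ 0) (i j : Fin 3) :
    ∑ a, (θ i a).1 x * (A a j).1 x = if i = j then 1 else 0 := by
  have h1 : (Matrix.of fun a i => (A a i).1 x) * (Matrix.of fun i a => (θ i a).1 x) =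
      (1 : Matrix (Fin 3) (Fin 3) ℝ) := by
    ext a c
    rw [Matrix.mul_apply, Matrix.one_apply]
    exact h x hx a c
  have h2 := mul_eq_one_comm.1 h1
  have h3 := congrFun (congrFun h2 i) j
  rw [Matrix.mul_apply, Matrix.one_apply] at h3
  exact h3

/-- functions of `(x, t)` -/
noncomputable def XTs (Q : BA τ) : Subalgebra ℝ Q.B where
  carrier := {f | Q.XT f}
  mul_mem' := by
    rintro f g ⟨h1, h2⟩ ⟨h3, h4⟩
    exact ⟨fun k => by rw [Derivation.leibniz, h1, h3, smul_zero, smul_zero, add_zero],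
      fun k => by rw [Derivation.leibniz, h2, h4, smul_zero, smul_zero, add_zero]⟩
  add_mem' := by
    rintro f g ⟨h1, h2⟩ ⟨h3, h4⟩
    exact ⟨fun k => by rw [map_add, h1, h3, add_zero], fun k => by rw [map_add, h2, h4, add_zero]⟩
  algebraMap_mem' r := ⟨fun k => Derivation.map_algebraMap _ _, fun k =>
    Derivation.map_algebraMap _ _⟩

theorem XTs_E {Q : BA τ} (hQ : Q.Ax) (i : Fin 3) (f : Q.B) (hf : f ∈ XTs Q) : Q.E i f ∈ XTs Q :=
  ⟨fun k => by rw [← hQ.EU, hf.1 k, map_zero], fun k => by rw [← hQ.EV, hf.2 k, map_zero]⟩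

theorem small_ev {g : ℝ → HH → ℝ} (hτ : 0 < τ) (hg : SmFam (Icc 0 τ) g) (h0 : ∀ x ≠ 0, g 0 x = 0)
    {f : (baC τ).B} (hf : ∀ y : Yt τ, rho y f = g y.1.1 y.1.2) {δ : ℝ} (hδ : 0 < δ) :
    ∀ᶠ η in 𝓝[>] (0 : ℝ), ∀ y : Yt τ, y.1.1 < η → |rho y f| ≤ δ := by
  obtain ⟨η, hη, h⟩ := fam_small hτ hg h0 hδ
  filter_upwards [Ioo_mem_nhdsGT hη] with η' hη' y hy
  rw [hf]
  exact h _ y.2.1 (hy.trans hη'.2) _ y.2.2

theorem ev_emb (hD6 : D6Stmt) {u : ℝ → HH → ℝ} (hu : JS τ u) (z : (baC τ).Z) (t : TI τ) :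
    (baC τ).ev z t (emb u hu) = u t (Prod.fst z : Metric.sphere (0 : HH) 1) :=
  ((hD6 τ).1 u hu).1 z t

/-- derivative in time from `SmFam1` -/
theorem der_of {u u' : ℝ → XS} (h : SmFam1 (Icc 0 τ) (fun t => (u t).1) (fun t => (u' t).1))
    (t : ℝ) (h0 : 0 < t) (h1 : t < τ) (x : HH) (hx : x ≠ 0) :
    HasDerivAt (fun r => (u r).1 x) ((u' t).1 x) t :=
  (h.der [] x hx t ⟨h0.le, h1.le⟩).hasDerivAt (Icc_mem_nhds h0 h1)

/-- evaluation of elements of `XS` -/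
noncomputable def evX (x : HH) : XS →ₐ[ℝ] ℝ := (Pi.evalAlgHom ℝ (fun _ : HH => ℝ) x).comp XS.val

theorem evX_apply (x : HH) (f : XS) : evX x f = f.1 x := rfl

theorem fh (hDax : DaxStmt) (hD6 : D6Stmt) (hCV : R_CV) {A θ P : ℝ → Fin 3 → Fin 3 → XS}
    (hFS : FS τ A θ P) (hInv : ∀ t ∈ Icc 0 τ, Inv (A t) (θ t))
    (jA : ∀ a i, JS τ (fun t => (A t a i).1)) (jt : ∀ i a, JS τ (fun t => (θ t i a).1))
    (jP : ∀ a b, JS τ (fun t => (P t a b).1)) :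
    (baC τ).FH (fun a i => emb _ (jA a i)) (fun i a => emb _ (jt i a))
      (Sf fun a b => emb _ (jP a b)) := by
  have hax := hDax τ
  refine ⟨fun a i => ((hD6 τ).1 _ (jA a i)).2.1, fun i a => ((hD6 τ).1 _ (jt i a)).2.1,
    fun a b => ?_, fun a b => ?_, fun i j => ?_, fun a i => ?_, fun a b => ?_⟩
  · exact Sf_mem (S := XTs (baC τ)) (fun a b => ((hD6 τ).1 _ (jP a b)).2.1) a b
  · refine hax.ext _ _ fun z t => ?_
    have h := hInv t ⟨t.2.1.le, t.2.2.le⟩ _ (sph_ne (Prod.fst z : Metric.sphere (0 : HH) 1)) a b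
    rw [map_sum]
    simp only [map_mul, ev_emb hD6]
    rw [h]
    split_ifs
    · rw [map_one]
    · rw [map_zero]
  · refine hax.ext _ _ fun z t => ?_
    have h := inv_comm (hInv t ⟨t.2.1.le, t.2.2.le⟩)
      (sph_ne (Prod.fst z : Metric.sphere (0 : HH) 1)) i j
    rw [map_sum]
    simp only [map_mul, ev_emb hD6]
    rw [h]
    split_ifs
    · rw [map_one]
    · rw [map_zero]
  · obtain ⟨hD, h⟩ := ((hD6 τ).1 _ (jA a i)).2.2.2 (fun t => (FAf (A t) (P t) a i).1)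
      (fun t h0 h1 x hx => der_of (hCV τ _ _ (hFS.dA a i)) t h0 h1 x hx)
    rw [h]
    refine hax.ext _ _ fun z t => ?_
    rw [ev_emb hD6, map_sum]
    simp only [map_mul, ev_emb hD6, Sf, map_sub]
    change evX _ (∑ b, ((if a = b then trP (P t) else 0) - P t a b) * A t b i) = _
    rw [map_sum]
    refine Finset.sum_congr rfl fun b _ => ?_
    rw [map_mul, map_sub]
    refine congrArg₂ _ (congrArg₂ _ ?_ rfl) rfl
    split_ifs
    · rw [trP, trP, map_sum, map_sum]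
      exact Finset.sum_congr rfl fun c _ => (ev_emb hD6 (jP c c) z t).symm
    · rw [map_zero, map_zero]
  · have h : ∀ a b, (emb _ (jP a b) : (baC τ).B) = emb _ (jP b a) := fun a b => by
      refine hax.ext _ _ fun z t => ?_
      rw [ev_emb hD6, ev_emb hD6, hFS.sym]
    simp only [Sf, h a b, eq_comm (a := a) (b := b)]

theorem dtP (hDax : DaxStmt) (hD6 : D6Stmt) (hCV : R_CV) (hNtx : G_NTX)
    {A θ P : ℝ → Fin 3 → Fin 3 → XS} (hFS : FS τ A θ P)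
    (jA : ∀ a i, JS τ (fun t => (A t a i).1)) (jt : ∀ i a, JS τ (fun t => (θ t i a).1))
    (jP : ∀ a b, JS τ (fun t => (P t a b).1)) (a b : Fin 3) :
    (baC τ).Dt (emb _ (jP a b)) = FPf (baC τ).E (fun a i => emb _ (jA a i))
      (fun i a => emb _ (jt i a)) (fun a b => emb _ (jP a b)) a b := by
  have hax := hDax τ
  obtain ⟨hD, h⟩ := ((hD6 τ).1 _ (jP a b)).2.2.2 (fun t => (FPf Ed (A t) (θ t) (P t) a b).1)
    (fun t h0 h1 x hx => der_of (hCV τ _ _ (hFS.dP a b)) t h0 h1 x hx)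
  rw [h]
  refine hax.ext _ _ fun z t => ?_
  have hm : FPf (baC τ).E (fun a i => emb _ (jA a i))
      (fun i a => emb _ (jt i a)) (fun a b => emb _ (jP a b)) a b ∈ XTs (baC τ) :=
    FPf_mem (XTs_E hax) (fun a i => ((hD6 τ).1 _ (jA a i)).2.1)
      (fun i a => ((hD6 τ).1 _ (jt i a)).2.1) (fun a b => ((hD6 τ).1 _ (jP a b)).2.1) a b
  have h1 := (hD6 τ).2.2.2.2.2 _ hm.2 z t
  have h2 := (hNtx hD6 τ A θ P jA jt jP t (Prod.fst z : Metric.sphere (0 : HH) 1) t.2.1 t.2.2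
    (sph_ne _)).2.2.2.2 a b
  rw [ev_emb hD6]
  exact h2.symm.trans h1.symm

theorem delta2 {B : Type} [CommRing B] [Algebra ℝ B] (ρ : B →ₐ[ℝ] ℝ) {R N : Fin 3 → Fin 3 → B}
    (hR : ∀ a b, ρ (R a b) = if a = b then 1 else 0) (i j : Fin 3) :
    ρ (∑ l, ∑ k, R i l * R j k * N l k) = ρ (N i j) := by
  simp only [map_sum, map_mul, hR]
  simp

theorem delta3 {B : Type} [CommRing B] [Algebra ℝ B] (ρ : B →ₐ[ℝ] ℝ) {R : Fin 3 → Fin 3 → B}
    {N : Fin 3 → Fin 3 → Fin 3 → B} (hR : ∀ a b, ρ (R a b) = if a = b then 1 else 0)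
    (c i j : Fin 3) :
    ρ (∑ e, ∑ a, ∑ b, R c e * R i a * R j b * N e a b) = ρ (N c i j) := by
  simp only [map_sum, map_mul, hR]
  simp

/-- membership in the coefficient algebra -/
def Sp (f : (baC τ).B) : Prop := f ∈ SB τ

theorem Sp_mul (f g : (baC τ).B) (hf : Sp f) (hg : Sp g) : Sp (f * g) :=
  Subalgebra.mul_mem (SB τ) hf hg

theorem Sp_add (f g : (baC τ).B) (hf : Sp f) (hg : Sp g) : Sp (f + g) :=
  Subalgebra.add_mem (SB τ) hf hg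

theorem Sp_alg (r : ℝ) : Sp (algebraMap ℝ (baC τ).B r) := Subalgebra.algebraMap_mem (SB τ) r

/-- value at a point -/
noncomputable def rf (y : Yt τ) (f : (baC τ).B) : ℝ := rho y f

theorem rf_one (y : Yt τ) : rf y 1 = 1 := map_one (rho y)

theorem rf_zero (y : Yt τ) : rf y 0 = 0 := map_zero (rho y)

theorem rf_mul (y : Yt τ) (f g : (baC τ).B) : rf y (f * g) = rf y f * rf y g :=
  map_mul (rho y) f g

theorem rf_add (y : Yt τ) (f g : (baC τ).B) : rf y (f + g) = rf y f + rf y g :=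
  map_add (rho y) f g

theorem rf_alg (y : Yt τ) (r : ℝ) : rf y (algebraMap ℝ (baC τ).B r) = r := (rho y).commutes r

/-- the conclusion for `0 < t < τ`, for given elements of the bundle algebra -/
theorem core2 (hD6 : D6Stmt) (hCon : G_CON) (hAt1 : G_AT1) (hEnb : G_ENB) (hBiz : R_BIZ)
    {A θ P : ℝ → Fin 3 → Fin 3 → XS} (hτ : 0 < τ)
    (hInv : ∀ t ∈ Icc 0 τ, Inv (A t) (θ t))
    (h0 : ∀ a b, ∀ x ≠ 0, (P 0 a b).1 x = (FR.N Ed (A 0) (θ 0) a b).1 x)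
    (sA : ∀ a i, SmC τ (fun t => A t a i)) (st : ∀ a i, SmC τ (fun t => θ t a i))
    (sP : ∀ a i, SmC τ (fun t => P t a i)) (EA Et EP : Fin 3 → Fin 3 → (baC τ).B)
    (hEA : ∀ (y : Yt τ) a i, rho y (EA a i) = (A y.1.1 a i).1 y.1.2)
    (hEt : ∀ (y : Yt τ) a i, rho y (Et a i) = (θ y.1.1 a i).1 y.1.2)
    (hEP : ∀ (y : Yt τ) a i, rho y (EP a i) = (P y.1.1 a i).1 y.1.2)
    (hom : ∀ (y : Yt τ) a k, rho y (FR.om (baC τ).E EA Et a k) =
      (FR.om Ed (A y.1.1) (θ y.1.1) a k).1 y.1.2)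
    (hN : ∀ (y : Yt τ) a k, rho y (FR.N (baC τ).E EA Et a k) =
      (FR.N Ed (A y.1.1) (θ y.1.1) a k).1 y.1.2)
    (hnab : ∀ (y : Yt τ) c a b, rho y (nab (baC τ).E EA Et EP c a b) =
      (nab Ed (A y.1.1) (θ y.1.1) (P y.1.1) c a b).1 y.1.2)
    (hPH : PH ((baC τ).toFBD EA Et (Sf EP))
      (fun i j => ∑ a, ∑ b, (baC τ).R i a * (baC τ).R j b * EP a b))
    (hH : ∀ c i j, ((baC τ).toFBD EA Et (Sf EP)).H c
      (∑ a, ∑ b, (baC τ).R i a * (baC τ).R j b * EP a b) =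
      ∑ e, ∑ a, ∑ b, (baC τ).R c e * (baC τ).R i a * (baC τ).R j b *
        nab (baC τ).E EA Et EP e a b) (y : Yt τ) (a b : Fin 3) :
    (FR.N Ed (A y.1.1) (θ y.1.1) a b).1 y.1.2 = (P y.1.1 a b).1 y.1.2 := by
  have hR : ∀ (y : Yt τ) a b, rho y ((baC τ).R a b) = if a = b then 1 else 0 := fun y a b => by
    rw [rho_eq]
    exact (hD6 τ).2.2.2.1 a b _ _ y.2.1.1 y.2.1.2 y.2.2
  have mR : ∀ a b, (baC τ).R a b ∈ SB τ := fun a b =>
    ⟨fun _ _ => if a = b then 1 else 0, (c8 _).1 (fun _ => if a = b then 1 else 0)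
      continuousOn_const, fun y => hR y a b⟩
  have mA : ∀ a i, EA a i ∈ SB τ := fun a i => SB_of (sA a i) fun y => hEA y a i
  have mt : ∀ a i, Et a i ∈ SB τ := fun a i => SB_of (st a i) fun y => hEt y a i
  have mP : ∀ a i, EP a i ∈ SB τ := fun a i => SB_of (sP a i) fun y => hEP y a i
  have mom : ∀ a k, FR.om (baC τ).E EA Et a k ∈ SB τ := fun a k =>
    SB_of (SmC.om sA st a k) fun y => hom y a k
  have mN : ∀ a k, FR.N (baC τ).E EA Et a k ∈ SB τ := fun a k =>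
    SB_of (SmC.N sA st a k) fun y => hN y a k
  have mnab : ∀ c a b, nab (baC τ).E EA Et EP c a b ∈ SB τ := fun c a b =>
    SB_of (SmC.nab sA st sP c a b) fun y => hnab y c a b
  have mPP : ∀ i j, (∑ a, ∑ b, (baC τ).R i a * (baC τ).R j b * EP a b) ∈ SB τ := fun i j =>
    Subalgebra.sum_mem _ fun a _ => Subalgebra.sum_mem _ fun b _ => Subalgebra.mul_mem _
      (Subalgebra.mul_mem _ (mR _ _) (mR _ _)) (mP _ _)
  have mM : ∀ i j, (∑ l, ∑ k, (baC τ).R i l * (baC τ).R j k *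
      FR.N (baC τ).E EA Et l k) ∈ SB τ := fun i j =>
    Subalgebra.sum_mem _ fun a _ => Subalgebra.sum_mem _ fun b _ => Subalgebra.mul_mem _
      (Subalgebra.mul_mem _ (mR _ _) (mR _ _)) (mN _ _)
  have mX : ∀ c i j, (∑ e, ∑ a, ∑ b, (baC τ).R c e * (baC τ).R i a * (baC τ).R j b *
        nab (baC τ).E EA Et EP e a b) ∈ SB τ := fun c i j =>
    Subalgebra.sum_mem _ fun e _ => Subalgebra.sum_mem _ fun a _ =>
      Subalgebra.sum_mem _ fun b _ => Subalgebra.mul_mem _ (Subalgebra.mul_mem _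
      (Subalgebra.mul_mem _ (mR _ _) (mR _ _)) (mR _ _)) (mnab _ _ _)
  have mHP : ∀ c i j, Sp (((baC τ).toFBD EA Et (Sf EP)).H c
      (∑ a, ∑ b, (baC τ).R i a * (baC τ).R j b * EP a b)) := fun c i j => by
    rw [hH]
    exact mX c i j
  have mNb : ∀ i j, (∑ l, ∑ k, (baC τ).R i l * (baC τ).R j k *
      FR.N (baC τ).E EA Et l k) - (∑ a, ∑ b, (baC τ).R i a * (baC τ).R j b * EP a b) ∈ SB τ :=
    fun i j => Subalgebra.sub_mem _ (mM i j) (mPP i j)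
  obtain ⟨OM, hOM⟩ : ∃ OM : Fin 3 → Fin 3 → (baC τ).B, OM = FR.om (baC τ).E EA Et := ⟨_, rfl⟩
  rw [← hOM] at mom
  have hat : ∀ (y : Yt τ) a (f : (baC τ).B), rf y (((baC τ).toFBD EA Et (Sf EP)).H a f) =
      ∑ i, rf y (EA a i) * rf y ((baC τ).E i f) -
        ∑ k, rf y (OM a k) * rf y ((baC τ).V k f) := fun y a f => by
    rw [hOM]
    refine (rho_eq y _).trans ((hAt1 hD6 τ EA Et (Sf EP) f a _ _ y.2.1.1 y.2.1.2 y.2.2).trans ?_)
    simp only [rf, rho_E hD6, rho_eq]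
  obtain ⟨⟨c1, c2, m1, m2, e1⟩, ⟨c3, c4, c5, c6, m3, m4, m5, m6, e2⟩, ⟨c7, m7, e3⟩⟩ :=
    alg' ((baC τ).toFBD EA Et (Sf EP))
      (fun i j => ∑ a, ∑ b, (baC τ).R i a * (baC τ).R j b * EP a b) Sp Sp_mul Sp_add Sp_alg
      (fun i f => (baC τ).E i f) (Yt τ) rf rf_one rf_mul rf_zero rf_add
      rf_alg EA OM
      mPP mNb mHP mA mom hat hPH hCon
  obtain ⟨NB, hNB⟩ : ∃ NB : Fin 3 → Fin 3 → (baC τ).B, NB = Nb ((baC τ).toFBD EA Et (Sf EP))
      (fun i j => ∑ a, ∑ b, (baC τ).R i a * (baC τ).R j b * EP a b) := ⟨_, rfl⟩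
  obtain ⟨Bj, hBj⟩ : ∃ Bj : Fin 3 → (baC τ).B, Bj = Bb ((baC τ).toFBD EA Et (Sf EP))
      (fun i j => ∑ a, ∑ b, (baC τ).R i a * (baC τ).R j b * EP a b) := ⟨_, rfl⟩
  obtain ⟨HB, hHB⟩ : ∃ HB : Fin 3 → Fin 3 → (baC τ).B, HB = fun a j =>
      ((baC τ).toFBD EA Et (Sf EP)).H a (Bj j) := ⟨_, rfl⟩
  rw [← hNB, ← hBj] at e1 e2
  rw [← hBj] at e3
  replace e1 : ∀ i y, rf y ((baC τ).Dt (NB i.1 i.2)) = ∑ a, ∑ j, rf y (c1 i a j) *
      rf y (HB a j) + ∑ k : Fin 3 × Fin 3, rf y (c2 i k) * rf y (NB k.1 k.2) := by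
    rw [hHB]
    exact e1
  replace e2 : ∀ j y, rf y ((baC τ).Dt (Bj j)) = ∑ a, ∑ i, rf y (EA a i) *
      rf y ((baC τ).E i (HB a j)) +
        ∑ a, ∑ k, rf y (c3 j a k) * rf y (HB a k) + ∑ k, rf y (c4 j k) * rf y (Bj k) +
        ∑ k : Fin 3 × Fin 3, rf y (c5 j k) * rf y (NB k.1 k.2) +
        ∑ i, ∑ k : Fin 3 × Fin 3, rf y (c6 j i k) * rf y ((baC τ).E i (NB k.1 k.2)) := by
    rw [hHB]
    exact e2
  replace e3 : ∀ a j y, rf y (HB a j) = ∑ i, rf y (EA a i) * rf y ((baC τ).E i (Bj j)) +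
      ∑ k, rf y (c7 a j k) * rf y (Bj k) := by
    rw [hHB]
    exact e3
  have vN : ∀ (y : Yt τ) i j, rf y (NB i j) =
      (FR.N Ed (A y.1.1) (θ y.1.1) i j - P y.1.1 i j : XS).1 y.1.2 := fun y i j => by
    rw [hNB]
    exact (map_sub (rho y) _ _).trans (congrArg₂ (fun r s : ℝ => r - s)
      ((delta2 (rho y) (hR y) i j).trans (hN y i j)) ((delta2 (rho y) (hR y) i j).trans (hEP y i j)))
  have wB : ∀ j, Bj j = ∑ i, ∑ e, ∑ a, ∑ b, (baC τ).R i e * (baC τ).R i a * (baC τ).R j b *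
      nab (baC τ).E EA Et EP e a b := fun j => by
    rw [hBj]
    exact Finset.sum_congr rfl fun i _ => hH i i j
  have vB : ∀ (y : Yt τ) j, rf y (Bj j) =
      (∑ i, nab Ed (A y.1.1) (θ y.1.1) (P y.1.1) i i j : XS).1 y.1.2 := fun y j => by
    rw [wB]
    refine (map_sum (rho y) _ _).trans ?_
    change _ = evX y.1.2 (∑ i, nab Ed (A y.1.1) (θ y.1.1) (P y.1.1) i i j)
    rw [map_sum]
    exact Finset.sum_congr rfl fun i _ => (delta3 (rho y) (hR y) i i j).trans (hnab y i i j)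
  have smallN : ∀ (i : Fin 3 × Fin 3) {δ : ℝ}, 0 < δ → ∀ᶠ η in 𝓝[>] (0 : ℝ), ∀ y : Yt τ,
      y.1.1 < η → |rho y (NB i.1 i.2)| ≤ δ := fun i δ hδ =>
    small_ev hτ ((SmC.N sA st i.1 i.2).sub (sP i.1 i.2)) (fun x hx => by
      change (FR.N Ed (A 0) (θ 0) i.1 i.2).1 x - (P 0 i.1 i.2).1 x = 0
      rw [h0 _ _ x hx, sub_self]) (fun y => vN y i.1 i.2) hδ
  have smallB : ∀ (j : Fin 3) {δ : ℝ}, 0 < δ → ∀ᶠ η in 𝓝[>] (0 : ℝ), ∀ y : Yt τ,
      y.1.1 < η → |rho y (Bj j)| ≤ δ := fun j δ hδ =>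
    small_ev hτ (SmC.sum (F := fun i t => nab Ed (A t) (θ t) (P t) i i j) fun i =>
      SmC.nab sA st sP i i j) (fun x hx => by
      have h := (hBiz (A 0) (θ 0) (hInv 0 ⟨le_rfl, hτ.le⟩)).2 j x hx
      refine Eq.trans ?_ h
      change evX x (∑ i, nab Ed (A 0) (θ 0) (P 0) i i j) =
        evX x (∑ i, nab Ed (A 0) (θ 0) (FR.N Ed (A 0) (θ 0)) i i j)
      rw [map_sum, map_sum]
      exact Finset.sum_congr rfl fun i _ => nab_congr h0 i i j hx) (fun y => vB y j) hδ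
  have hev : ∀ᶠ K in atTop, (∀ a i k, bd (EA a i) K ∧ bd ((baC τ).E k (EA a i)) K ∧
      bd (Et i a) K) ∧ (∀ i a j, bd (c1 i a j) K) ∧ (∀ i k, bd (c2 i k) K) ∧
      (∀ j a k, bd (c3 j a k) K) ∧ (∀ j k, bd (c4 j k) K) ∧ (∀ j k, bd (c5 j k) K) ∧
      (∀ j i k l, bd (c6 j i k) K ∧ bd ((baC τ).E l (c6 j i k)) K) ∧
      (∀ a j k, bd (c7 a j k) K) := by
    simp only [eventually_and, eventually_all]
    exact ⟨fun a i k => ⟨SB_bd (mA a i), SB_bd (SB_E hD6 k (mA a i)), SB_bd (mt i a)⟩,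
      fun i a j => SB_bd (m1 i a j), fun i k => SB_bd (m2 i k), fun j a k => SB_bd (m3 j a k),
      fun j k => SB_bd (m4 j k), fun j k => SB_bd (m5 j k),
      fun j i k l => ⟨SB_bd (m6 j i k), SB_bd (SB_E hD6 l (m6 j i k))⟩,
      fun a j k => SB_bd (m7 a j k)⟩
  obtain ⟨K, b0, b1, b2, b3, b4, b5, b6, b7⟩ := hev.exists
  have hX := fun (y : Yt τ) f => toX_rho hD6 f y
  have hXE := fun (y : Yt τ) f i => toX_E hD6 f y i
  have key := hEnb (Fin 3 × Fin 3) (Fin 3) τ K (fun i => toX hD6 (NB i.1 i.2))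
    (fun i => toX hD6 ((baC τ).Dt (NB i.1 i.2))) (fun j => toX hD6 (Bj j))
    (fun j => toX hD6 ((baC τ).Dt (Bj j))) (fun a j => toX hD6 (HB a j))
    (fun a i => toX hD6 (EA a i)) (fun i a => toX hD6 (Et i a))
    (fun i a j => toX hD6 (c1 i a j)) (fun i k => toX hD6 (c2 i k))
    (fun j a k => toX hD6 (c3 j a k)) (fun j k => toX hD6 (c4 j k))
    (fun j k => toX hD6 (c5 j k)) (fun j i k => toX hD6 (c6 j i k))
    (fun a j k => toX hD6 (c7 a j k))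
    (fun i => toX_cont hD6 _) (fun i => toX_cont hD6 _) (fun i => toX_cont hD6 _)
    (fun i => toX_cont hD6 _) (fun i t ht x hx => toX_der hD6 _ ht hx)
    (fun i t ht x hx => toX_der hD6 _ ht hx)
    (fun t ht x hx => by
      have hx1 := fun f => hX ⟨(t, x), ht, hx⟩ f
      have hx2 := fun f i => hXE ⟨(t, x), ht, hx⟩ f i
      simp only at hx1 hx2
      simp only [hx1, hx2]
      refine ⟨fun i => e1 i _, fun j => e2 j _, fun a j => e3 a j _, fun i j => ?_,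
        fun a i k => ⟨(b0 a i k).1 _, (b0 a i k).2.1 _, (b0 a i k).2.2 _⟩, fun i a j => b1 i a j _,
        fun i k => b2 i k _, fun j a k => b3 j a k _, fun j k => b4 j k _, fun j k => b5 j k _,
        fun j i k l => ⟨(b6 j i k l).1 _, (b6 j i k l).2 _⟩, fun a j k => b7 a j k _⟩
      simp only [hEA, hEt]
      exact inv_comm (hInv t (Ioo_subset_Icc_self ht)) hx i j)
    (fun δ hδ => by
      have h1 := (eventually_all.2 fun i => smallN i hδ).and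
        ((eventually_all.2 fun j => smallB j hδ).and (eventually_mem_nhdsWithin (a := (0 : ℝ))))
      obtain ⟨η, h2, h3, h4⟩ := h1.exists
      refine ⟨η, h4, fun t ht htη x hx => ⟨fun i => ?_, fun j => ?_⟩⟩
      · have := h2 i ⟨(t, x), ht, hx⟩ htη
        rw [← hX] at this
        exact this
      · have := h3 j ⟨(t, x), ht, hx⟩ htη
        rw [← hX] at this
        exact this) y.1.1 y.2.1 y.1.2 y.2.2
  have h := key.1 (a, b)
  have h2 := (hX y (NB a b)).symm.trans h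
  have h3 := (vN y a b).symm.trans h2
  exact sub_eq_zero.1 h3

end

theorem eq_on_Icc {τ : ℝ} (hτ : 0 < τ) {u v : ℝ → XS} (hu : SmC τ u) (hv : SmC τ v) {x : HH}
    (hx : x ≠ 0) (h : ∀ s ∈ Ioo 0 τ, (u s).1 x = (v s).1 x) {t : ℝ} (ht : t ∈ Icc 0 τ) :
    (u t).1 x = (v t).1 x := by
  have hcu : ContinuousOn (fun s => (u s).1 x) (Icc 0 τ) :=
    (hu.cont []).comp (f := fun s : ℝ => (s, x)) (by fun_prop) (fun s hs => ⟨hs, hx⟩)
  have hcv : ContinuousOn (fun s => (v s).1 x) (Icc 0 τ) :=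
    (hv.cont []).comp (f := fun s : ℝ => (s, x)) (by fun_prop) (fun s hs => ⟨hs, hx⟩)
  exact EqOn.of_subset_closure (s := Ioo 0 τ) h hcu hcv Ioo_subset_Icc_self
    (closure_Ioo hτ.ne).ge ht

/-- Packet CQ. -/
theorem cq : G_CQ := by
  intro _ hCV hFra hDax hD6 hFul hLnk hCon hAt1 hNtx hEnb hBiz τ A θ P hτ hFS hInv h0
  have hax := hDax τ
  have sA : ∀ a i, SmC τ (fun t => A t a i) := fun a i => (hCV τ _ _ (hFS.dA a i)).fam
  have st : ∀ a i, SmC τ (fun t => θ t a i) := fun a i => (hCV τ _ _ (hFS.dt a i)).fam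
  have sP : ∀ a i, SmC τ (fun t => P t a i) := fun a i => (hCV τ _ _ (hFS.dP a i)).fam
  have jA : ∀ a i, JS τ (fun t => (A t a i).1) := fun a i => js_of (hFS.jA a i)
  have jt : ∀ a i, JS τ (fun t => (θ t a i).1) := fun a i => js_of (hFS.jt a i)
  have jP : ∀ a i, JS τ (fun t => (P t a i).1) := fun a i => js_of (hFS.jP a i)
  have hFH := fh hDax hD6 hCV hFS hInv jA jt jP
  have hDt := dtP hDax hD6 hCV hNtx hFS jA jt jP
  have hFull := hFul τ (baC τ) hax _ _ _ hFH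
  have hsym : ∀ a b, (emb _ (jP a b) : (baC τ).B) = emb _ (jP b a) := fun a b => by
    refine hax.ext _ _ fun z t => ?_
    rw [ev_emb hD6, ev_emb hD6, hFS.sym]
  obtain ⟨hPH, hH, -⟩ := hLnk hFra τ (baC τ) hax (fun a i => emb _ (jA a i))
    (fun i a => emb _ (jt i a)) (fun a b => emb _ (jP a b)) hsym
    (fun a b => ((hD6 τ).1 _ (jP a b)).2.1) hFH hDt hFull
  have hntx := fun y : Yt τ => hNtx hD6 τ A θ P jA jt jP y.1.1 y.1.2 y.2.1.1 y.2.1.2 y.2.2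
  have main : ∀ (y : Yt τ) a b,
      (FR.N Ed (A y.1.1) (θ y.1.1) a b).1 y.1.2 = (P y.1.1 a b).1 y.1.2 := fun y a b =>
    core2 hD6 hCon hAt1 hEnb hBiz hτ hInv h0 sA st sP _ _ _ (fun y a i => rho_emb y (jA a i))
      (fun y a i => rho_emb y (jt a i)) (fun y a i => rho_emb y (jP a i))
      (fun y a k => (rho_eq y _).trans ((hntx y).1 a k))
      (fun y a k => (rho_eq y _).trans ((hntx y).2.2.1 a k))
      (fun y c a b => (rho_eq y _).trans ((hntx y).2.2.2.1 c a b)) hPH hH y a b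
  intro t ht a b x hx
  have h5 : ∀ s ∈ Ioo 0 τ, (P s a b).1 x = (FR.N Ed (A s) (θ s) a b).1 x := by
    intro s hs
    have h6 := main ⟨(s, x), hs, hx⟩ a b
    dsimp only at h6
    rw [h6]
  exact eq_on_Icc (u := fun t => P t a b) (v := fun t => FR.N Ed (A t) (θ t) a b) hτ (sP a b)
    (SmC.N sA st a b) hx h5 ht

end Pool.Agent.Helper50.RI
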