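import Pool.Agent.Helper36.RI.Goals

/-!
# Project RF, packet CQ: the algebraic part

The constraint equations CON at `q = 1` are equations of the form of ENB. `𝒮` is a subalgebra of coefficients, `ρ y` the
evaluation at a point of `{q = 1}`.
-/

namespace Pool.Agent.Helper50.RI

open Set Pool.Agent.Helper36.RI Pool.Agent.Helper73.RF
open Pool.Agent.Helper47.RF hiding eps

section

variable {T : ℝ} (F : FBD T) (PP : Fin 3 → Fin 3 → F.B) (𝒮 : Subalgebra ℝ F.B)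

/-- generators of the first module -/
def v1 : (Fin 3 × Fin 3) ⊕ (Fin 3 × Fin 3) → F.B :=
  Sum.elim (fun p => F.H p.1 (Bb F PP p.2)) (fun k => Nb F PP k.1 k.2)

/-- first module -/
noncomputable def M1 : Submodule 𝒮 F.B := Submodule.span 𝒮 (range (v1 F PP))

theorem H_mem_M1 (a j : Fin 3) : F.H a (Bb F PP j) ∈ M1 F PP 𝒮 :=
  Submodule.subset_span ⟨Sum.inl (a, j), rfl⟩

theorem N_mem_M1 (a j : Fin 3) : Nb F PP a j ∈ M1 F PP 𝒮 :=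
  Submodule.subset_span ⟨Sum.inr (a, j), rfl⟩

variable {F PP 𝒮}

theorem smulR_mem {M : Submodule 𝒮 F.B} {f : F.B} (hf : f ∈ M) (r : ℝ) : r • f ∈ M := by
  have h : r • f = (algebraMap ℝ 𝒮 r) • f := by
    rw [Algebra.smul_def, Algebra.smul_def]
    rfl
  rw [h]
  exact M.smul_mem _ hf

theorem mulL_mem {M : Submodule 𝒮 F.B} {s f : F.B} (hs : s ∈ 𝒮) (hf : f ∈ M) : s * f ∈ M :=
  M.smul_mem ⟨s, hs⟩ hf

theorem mulR_mem {M : Submodule 𝒮 F.B} {s f : F.B} (hs : s ∈ 𝒮) (hf : f ∈ M) : f * s ∈ M := by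
  rw [mul_comm]
  exact mulL_mem hs hf

/-- extraction of coefficients from the first module -/
theorem of_M1 {f : F.B} (hf : f ∈ M1 F PP 𝒮) :
    ∃ (c1 : Fin 3 → Fin 3 → F.B) (c2 : Fin 3 × Fin 3 → F.B), (∀ a j, c1 a j ∈ 𝒮) ∧
      (∀ k, c2 k ∈ 𝒮) ∧ f = ∑ a, ∑ j, c1 a j * F.H a (Bb F PP j) +
        ∑ k, c2 k * Nb F PP k.1 k.2 := by
  rw [M1, Submodule.mem_span_range_iff_exists_fun] at hf
  obtain ⟨c, hc⟩ := hf
  refine ⟨fun a j => (c (Sum.inl (a, j)) : F.B), fun k => (c (Sum.inr k) : F.B),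
    fun a j => (c _).2, fun k => (c _).2, ?_⟩
  rw [← hc, Fintype.sum_sum_type, Fintype.sum_prod_type]
  rfl


/-- first equation -/
theorem eq1 (hP : ∀ i j, PP i j ∈ 𝒮)
    (h1 : ∀ l j, F.D (Nb F PP l j) = - F.H l (Bb F PP j) - F.H j (Bb F PP l)
      + (if l = j then ∑ a, F.H a (Bb F PP a) else 0)
      + (2 : ℝ) • ∑ c, (Nb F PP l c * PP c j + PP l c * Nb F PP c j)
      - (2 : ℝ) • (trP (Nb F PP) * PP l j)
      + (if l = j then trP (Nb F PP) * trP PP - ∑ c, ∑ d, Nb F PP c d * PP c d else 0))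
    (l j : Fin 3) : F.D (Nb F PP l j) ∈ M1 F PP 𝒮 := by
  have hH := H_mem_M1 F PP 𝒮
  have hN := N_mem_M1 F PP 𝒮
  have htP : trP PP ∈ 𝒮 := Subalgebra.sum_mem _ fun c _ => hP c c
  have htN : trP (Nb F PP) ∈ M1 F PP 𝒮 := Submodule.sum_mem _ fun c _ => hN c c
  rw [h1]
  refine Submodule.add_mem _ (Submodule.sub_mem _ (Submodule.add_mem _ (Submodule.add_mem _
    (Submodule.sub_mem _ (Submodule.neg_mem _ (hH _ _)) (hH _ _)) ?_) (smulR_mem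
    (Submodule.sum_mem _ fun c _ => Submodule.add_mem _ (mulR_mem (hP _ _) (hN _ _))
      (mulL_mem (hP _ _) (hN _ _))) _)) (smulR_mem (mulR_mem (hP _ _) htN) _)) ?_
  · split_ifs
    · exact Submodule.sum_mem _ fun a _ => hH _ _
    · exact Submodule.zero_mem _
  · split_ifs
    · exact Submodule.sub_mem _ (mulR_mem htP htN) (Submodule.sum_mem _ fun c _ =>
        Submodule.sum_mem _ fun d _ => mulR_mem (hP _ _) (hN _ _))
    · exact Submodule.zero_mem _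

variable (F PP 𝒮) (E : Fin 3 → F.B → F.B)

/-- generators of the second module -/
def v2 : (Fin 3 × Fin 3) ⊕ (Fin 3 ⊕ ((Fin 3 × Fin 3) ⊕ (Fin 3 × (Fin 3 × Fin 3)))) → F.B :=
  Sum.elim (fun p => F.H p.1 (Bb F PP p.2)) (Sum.elim (Bb F PP)
    (Sum.elim (fun k => Nb F PP k.1 k.2) (fun p => E p.1 (Nb F PP p.2.1 p.2.2))))

/-- second module -/
noncomputable def M2 : Submodule 𝒮 F.B := Submodule.span 𝒮 (range (v2 F PP E))

theorem H_mem_M2 (a j : Fin 3) : F.H a (Bb F PP j) ∈ M2 F PP 𝒮 E :=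
  Submodule.subset_span ⟨Sum.inl (a, j), rfl⟩

theorem B_mem_M2 (j : Fin 3) : Bb F PP j ∈ M2 F PP 𝒮 E :=
  Submodule.subset_span ⟨Sum.inr (Sum.inl j), rfl⟩

theorem N_mem_M2 (a j : Fin 3) : Nb F PP a j ∈ M2 F PP 𝒮 E :=
  Submodule.subset_span ⟨Sum.inr (Sum.inr (Sum.inl (a, j))), rfl⟩

theorem E_mem_M2 (i a j : Fin 3) : E i (Nb F PP a j) ∈ M2 F PP 𝒮 E :=
  Submodule.subset_span ⟨Sum.inr (Sum.inr (Sum.inr (i, (a, j)))), rfl⟩

variable {F PP 𝒮 E}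

/-- extraction of coefficients from the second module -/
theorem of_M2 {f : F.B} (hf : f ∈ M2 F PP 𝒮 E) :
    ∃ (c3 : Fin 3 → Fin 3 → F.B) (c4 : Fin 3 → F.B) (c5 : Fin 3 × Fin 3 → F.B)
      (c6 : Fin 3 → Fin 3 × Fin 3 → F.B), (∀ a j, c3 a j ∈ 𝒮) ∧
      (∀ k, c4 k ∈ 𝒮) ∧ (∀ k, c5 k ∈ 𝒮) ∧ (∀ i k, c6 i k ∈ 𝒮) ∧
      f = ∑ a, ∑ j, c3 a j * F.H a (Bb F PP j) + ∑ k, c4 k * Bb F PP k +
        ∑ k, c5 k * Nb F PP k.1 k.2 + ∑ i, ∑ k, c6 i k * E i (Nb F PP k.1 k.2) := by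
  rw [M2, Submodule.mem_span_range_iff_exists_fun] at hf
  obtain ⟨c, hc⟩ := hf
  refine ⟨fun a j => (c (Sum.inl (a, j)) : F.B), fun k => (c (Sum.inr (Sum.inl k)) : F.B),
    fun k => (c (Sum.inr (Sum.inr (Sum.inl k))) : F.B),
    fun i k => (c (Sum.inr (Sum.inr (Sum.inr (i, k)))) : F.B),
    fun a j => (c _).2, fun k => (c _).2, fun k => (c _).2, fun i k => (c _).2, ?_⟩
  rw [← hc, Fintype.sum_sum_type, Fintype.sum_sum_type, Fintype.sum_sum_type,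
    Fintype.sum_prod_type, Fintype.sum_prod_type (f := fun p : Fin 3 × (Fin 3 × Fin 3) =>
      c (Sum.inr (Sum.inr (Sum.inr p))) • v2 F PP E (Sum.inr (Sum.inr (Sum.inr p)))),
    add_assoc, add_assoc]
  rfl

variable {Y : Type} (ρ : Y → F.B →ₐ[ℝ] ℝ)

/-- elements that agree with an element of the module at the points -/
def LL (M : Submodule 𝒮 F.B) : Submodule 𝒮 F.B where
  carrier := {f | ∃ g ∈ M, ∀ y, ρ y f = ρ y g}
  zero_mem' := ⟨0, M.zero_mem, fun _ => rfl⟩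
  add_mem' := by
    rintro f f' ⟨g, hg, h⟩ ⟨g', hg', h'⟩
    exact ⟨g + g', M.add_mem hg hg', fun y => by rw [map_add, map_add, h, h']⟩
  smul_mem' := by
    rintro c f ⟨g, hg, h⟩
    refine ⟨c • g, M.smul_mem _ hg, fun y => ?_⟩
    change ρ y ((c : F.B) * f) = ρ y ((c : F.B) * g)
    rw [map_mul, map_mul, h]

variable {ρ}

theorem le_LL {M : Submodule 𝒮 F.B} {f : F.B} (hf : f ∈ M) : f ∈ LL ρ M := ⟨f, hf, fun _ => rfl⟩

variable {Aa om : Fin 3 → Fin 3 → F.B}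

theorem HN_mem (hA : ∀ a i, Aa a i ∈ 𝒮) (hom : ∀ a k, om a k ∈ 𝒮)
    (hat : ∀ y a f, ρ y (F.H a f) = ∑ i, ρ y (Aa a i) * ρ y (E i f) -
      ∑ k, ρ y (om a k) * ρ y (F.V k f))
    (h3 : ∀ k i j, F.V k (Nb F PP i j) =
      ∑ a, (eps k i a • Nb F PP a j + eps k j a • Nb F PP i a)) (c a b : Fin 3) :
    F.H c (Nb F PP a b) ∈ LL ρ (M2 F PP 𝒮 E) := by
  refine ⟨∑ i, Aa c i * E i (Nb F PP a b) - ∑ k, om c k * F.V k (Nb F PP a b), ?_, fun y => ?_⟩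
  · refine Submodule.sub_mem _ (Submodule.sum_mem _ fun i _ => mulL_mem (hA _ _)
      (E_mem_M2 F PP 𝒮 E _ _ _)) (Submodule.sum_mem _ fun k _ => mulL_mem (hom _ _) ?_)
    rw [h3]
    exact Submodule.sum_mem _ fun a _ => Submodule.add_mem _ (smulR_mem (N_mem_M2 F PP 𝒮 E _ _) _)
      (smulR_mem (N_mem_M2 F PP 𝒮 E _ _) _)
  · rw [hat, map_sub, map_sum, map_sum]
    simp only [map_mul]

theorem VHB_mem (hVH : ∀ k a f, F.V k (F.H a f) - F.H a (F.V k f) = ∑ b, eps k a b • F.H b f)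
    (h4 : ∀ k j, F.V k (Bb F PP j) = ∑ a, eps k j a • Bb F PP a) (k a j : Fin 3) :
    F.V k (F.H a (Bb F PP j)) ∈ M2 F PP 𝒮 E := by
  have h : F.V k (F.H a (Bb F PP j)) = ∑ b, eps k a b • F.H b (Bb F PP j) +
      ∑ b, eps k j b • F.H a (Bb F PP b) := by
    rw [← hVH k a (Bb F PP j), h4, map_sum]
    simp only [Derivation.map_smul]
    ring
  rw [h]
  exact Submodule.add_mem _ (Submodule.sum_mem _ fun b _ => smulR_mem (H_mem_M2 F PP 𝒮 E _ _) _)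
    (Submodule.sum_mem _ fun b _ => smulR_mem (H_mem_M2 F PP 𝒮 E _ _) _)

/-- second equation -/
theorem eq2 (hP : ∀ i j, PP i j ∈ 𝒮) (hN : ∀ i j, Nb F PP i j ∈ 𝒮)
    (hHP : ∀ a i j, F.H a (PP i j) ∈ 𝒮) (hA : ∀ a i, Aa a i ∈ 𝒮) (hom : ∀ a k, om a k ∈ 𝒮)
    (hat : ∀ y a f, ρ y (F.H a f) = ∑ i, ρ y (Aa a i) * ρ y (E i f) -
      ∑ k, ρ y (om a k) * ρ y (F.V k f))
    (hVH : ∀ k a f, F.V k (F.H a f) - F.H a (F.V k f) = ∑ b, eps k a b • F.H b f)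
    (h2 : ∀ j, F.D (Bb F PP j) = F.Lap (Bb F PP j) + ∑ i, PP j i * Bb F PP i
      + (2 : ℝ) • (trP PP * Bb F PP j) + (2 : ℝ) • Zb F PP j + trP (Nb F PP) * Bb F PP j
      - ∑ k, ∑ a, Nb F PP k a * F.H a (PP k j)
      + (2 : ℝ) • ∑ b, F.H b (trP (Nb F PP)) * PP b j
      + ∑ a, ∑ b, F.H j (Nb F PP a b) * PP a b
      - ∑ b, ∑ i, F.H b (Nb F PP j i) * PP i b - F.H j (trP (Nb F PP)) * trP PP)
    (h3 : ∀ k i j, F.V k (Nb F PP i j) =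
      ∑ a, (eps k i a • Nb F PP a j + eps k j a • Nb F PP i a))
    (h4 : ∀ k j, F.V k (Bb F PP j) = ∑ a, eps k j a • Bb F PP a) (j : Fin 3) :
    F.D (Bb F PP j) - ∑ a, ∑ i, Aa a i * E i (F.H a (Bb F PP j)) ∈ LL ρ (M2 F PP 𝒮 E) := by
  set L := LL ρ (M2 F PP 𝒮 E) with hL
  have htP : trP PP ∈ 𝒮 := Subalgebra.sum_mem _ fun c _ => hP c c
  have htN : trP (Nb F PP) ∈ 𝒮 := Subalgebra.sum_mem _ fun c _ => hN c c
  have hNL : ∀ a b, Nb F PP a b ∈ L := fun a b => le_LL (N_mem_M2 F PP 𝒮 E _ _)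
  have hBL : ∀ b, Bb F PP b ∈ L := fun b => le_LL (B_mem_M2 F PP 𝒮 E _)
  have hHNL : ∀ c a b, F.H c (Nb F PP a b) ∈ L := HN_mem hA hom hat h3
  have htNL : trP (Nb F PP) ∈ L := Submodule.sum_mem _ fun c _ => hNL c c
  have hHtN : ∀ b, F.H b (trP (Nb F PP)) ∈ L := fun b => by
    rw [trP, map_sum]
    exact Submodule.sum_mem _ fun c _ => hHNL _ _ _
  have hHtP : ∀ b, F.H b (trP PP) ∈ 𝒮 := fun b => by
    rw [trP, map_sum]
    exact Subalgebra.sum_mem _ fun c _ => hHP _ _ _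
  have hZ : Zb F PP j ∈ L := by
    rw [Zb]
    refine Submodule.sub_mem _ (Submodule.add_mem _ (Submodule.add_mem _ (Submodule.sub_mem _
      (Submodule.sub_mem _ ?_ ?_) ?_) ?_) ?_) ?_
    · exact Submodule.sum_mem _ fun a _ => Submodule.sum_mem _ fun b _ =>
        mulR_mem (hHP _ _ _) (hNL _ _)
    · exact Submodule.sum_mem _ fun i _ => mulL_mem (hN _ _) (hBL _)
    · exact Submodule.sum_mem _ fun a _ => Submodule.sum_mem _ fun b _ =>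
        mulR_mem (hHP _ _ _) (hNL _ _)
    · exact mulL_mem htN (hBL _)
    · exact Submodule.sum_mem _ fun a _ => mulR_mem (hHtP _) (hNL _ _)
    · exact mulR_mem (hHtP _) htNL
  have hLap : F.Lap (Bb F PP j) - ∑ a, ∑ i, Aa a i * E i (F.H a (Bb F PP j)) ∈ L := by
    rw [FBD.Lap, ← Finset.sum_sub_distrib]
    refine Submodule.sum_mem _ fun a _ => ⟨- ∑ k, om a k * F.V k (F.H a (Bb F PP j)), ?_,
      fun y => ?_⟩
    · exact Submodule.neg_mem _ (Submodule.sum_mem _ fun k _ => mulL_mem (hom _ _)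
        (VHB_mem hVH h4 _ _ _))
    · rw [map_sub, hat, map_neg, map_sum, map_sum]
      simp only [map_mul]
      ring
  have hrest : ∑ i, PP j i * Bb F PP i
      + (2 : ℝ) • (trP PP * Bb F PP j) + (2 : ℝ) • Zb F PP j + trP (Nb F PP) * Bb F PP j
      - ∑ k, ∑ a, Nb F PP k a * F.H a (PP k j)
      + (2 : ℝ) • ∑ b, F.H b (trP (Nb F PP)) * PP b j
      + ∑ a, ∑ b, F.H j (Nb F PP a b) * PP a b
      - ∑ b, ∑ i, F.H b (Nb F PP j i) * PP i b - F.H j (trP (Nb F PP)) * trP PP ∈ L := by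
    refine Submodule.sub_mem _ (Submodule.sub_mem _ (Submodule.add_mem _ (Submodule.add_mem _
      (Submodule.sub_mem _ (Submodule.add_mem _ (Submodule.add_mem _ (Submodule.add_mem _
      ?_ ?_) ?_) ?_) ?_) ?_) ?_) ?_) ?_
    · exact Submodule.sum_mem _ fun i _ => mulL_mem (hP _ _) (hBL _)
    · exact smulR_mem (mulL_mem htP (hBL _)) _
    · exact smulR_mem hZ _
    · exact mulL_mem htN (hBL _)
    · exact Submodule.sum_mem _ fun a _ => Submodule.sum_mem _ fun b _ =>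
        mulR_mem (hHP _ _ _) (hNL _ _)
    · exact smulR_mem (Submodule.sum_mem _ fun b _ => mulR_mem (hP _ _) (hHtN _)) _
    · exact Submodule.sum_mem _ fun a _ => Submodule.sum_mem _ fun b _ =>
        mulR_mem (hP _ _) (hHNL _ _ _)
    · exact Submodule.sum_mem _ fun a _ => Submodule.sum_mem _ fun b _ =>
        mulR_mem (hP _ _) (hHNL _ _ _)
    · exact mulR_mem htP (hHtN _)
  have := Submodule.add_mem _ hLap hrest
  rw [h2]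
  convert this using 1
  ring

/-- the three equations at the points -/
theorem alg (hP : ∀ i j, PP i j ∈ 𝒮) (hN : ∀ i j, Nb F PP i j ∈ 𝒮)
    (hHP : ∀ a i j, F.H a (PP i j) ∈ 𝒮) (hA : ∀ a i, Aa a i ∈ 𝒮) (hom : ∀ a k, om a k ∈ 𝒮)
    (hat : ∀ y a f, ρ y (F.H a f) = ∑ i, ρ y (Aa a i) * ρ y (E i f) -
      ∑ k, ρ y (om a k) * ρ y (F.V k f)) (hPH : PH F PP) (hcon : G_CON) :
    (∃ (c1 : Fin 3 × Fin 3 → Fin 3 → Fin 3 → F.B) (c2 : Fin 3 × Fin 3 → Fin 3 × Fin 3 → F.B),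
      (∀ i a j, c1 i a j ∈ 𝒮) ∧ (∀ i k, c2 i k ∈ 𝒮) ∧
      ∀ i, ∀ y, ρ y (F.D (Nb F PP i.1 i.2)) = ∑ a, ∑ j, ρ y (c1 i a j) *
        ρ y (F.H a (Bb F PP j)) + ∑ k, ρ y (c2 i k) * ρ y (Nb F PP k.1 k.2)) ∧
    (∃ (c3 : Fin 3 → Fin 3 → Fin 3 → F.B) (c4 : Fin 3 → Fin 3 → F.B)
      (c5 : Fin 3 → Fin 3 × Fin 3 → F.B) (c6 : Fin 3 → Fin 3 → Fin 3 × Fin 3 → F.B),
      (∀ j a k, c3 j a k ∈ 𝒮) ∧ (∀ j k, c4 j k ∈ 𝒮) ∧ (∀ j k, c5 j k ∈ 𝒮) ∧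
      (∀ j i k, c6 j i k ∈ 𝒮) ∧
      ∀ j, ∀ y, ρ y (F.D (Bb F PP j)) = ∑ a, ∑ i, ρ y (Aa a i) * ρ y (E i (F.H a (Bb F PP j))) +
        ∑ a, ∑ k, ρ y (c3 j a k) * ρ y (F.H a (Bb F PP k)) + ∑ k, ρ y (c4 j k) * ρ y (Bb F PP k) +
        ∑ k, ρ y (c5 j k) * ρ y (Nb F PP k.1 k.2) +
        ∑ i, ∑ k, ρ y (c6 j i k) * ρ y (E i (Nb F PP k.1 k.2))) ∧
    (∃ c7 : Fin 3 → Fin 3 → Fin 3 → F.B, (∀ a j k, c7 a j k ∈ 𝒮) ∧
      ∀ a j, ∀ y, ρ y (F.H a (Bb F PP j)) = ∑ i, ρ y (Aa a i) * ρ y (E i (Bb F PP j)) +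
        ∑ k, ρ y (c7 a j k) * ρ y (Bb F PP k)) := by
  obtain ⟨h1, h2, h3, h4⟩ := hcon T F PP hPH
  have hVH := hPH.full.VH
  refine ⟨?_, ?_, ?_⟩
  · choose c1 c2 m1 m2 h using fun i : Fin 3 × Fin 3 => of_M1 (eq1 hP h1 i.1 i.2)
    refine ⟨c1, c2, m1, m2, fun i y => ?_⟩
    rw [h i]
    simp only [map_add, map_sum, map_mul]
  · choose g hg hg' using fun j => eq2 hP hN hHP hA hom hat hVH h2 h3 h4 j
    choose c3 c4 c5 c6 m3 m4 m5 m6 h using fun j => of_M2 (hg j)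
    refine ⟨c3, c4, c5, c6, m3, m4, m5, m6, fun j y => ?_⟩
    have h5 := hg' j y
    rw [h j, map_sub, sub_eq_iff_eq_add] at h5
    rw [h5]
    simp only [map_add, map_sum, map_mul]
    ring
  · refine ⟨fun a j k => - ∑ l, eps l j k • om a l, fun a j k => Subalgebra.neg_mem _
      (Subalgebra.sum_mem _ fun l _ => Subalgebra.smul_mem _ (hom _ _) _), fun a j y => ?_⟩
    rw [hat]
    simp only [h4, map_sum, map_smul, map_neg, smul_eq_mul, sub_eq_add_neg]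
    congr 1
    simp only [Finset.mul_sum, neg_mul, Finset.sum_mul, Finset.sum_neg_distrib]
    rw [Finset.sum_comm]
    congr 1
    refine Finset.sum_congr rfl fun k _ => Finset.sum_congr rfl fun l _ => ?_
    ring

end

/-- `alg` in terms of predicates -/
theorem alg' {T : ℝ} (F : FBD T) (PP : Fin 3 → Fin 3 → F.B) (Sp : F.B → Prop)
    (smul : ∀ f g, Sp f → Sp g → Sp (f * g)) (sadd : ∀ f g, Sp f → Sp g → Sp (f + g))
    (salg : ∀ r : ℝ, Sp (algebraMap ℝ F.B r))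
    (E : Fin 3 → F.B → F.B) (Y : Type) (ρ : Y → F.B → ℝ)
    (r1 : ∀ y, ρ y 1 = 1) (rmul : ∀ y f g, ρ y (f * g) = ρ y f * ρ y g)
    (r0 : ∀ y, ρ y 0 = 0) (radd : ∀ y f g, ρ y (f + g) = ρ y f + ρ y g)
    (ralg : ∀ y (r : ℝ), ρ y (algebraMap ℝ F.B r) = r) (Aa om : Fin 3 → Fin 3 → F.B)
    (hP : ∀ i j, Sp (PP i j)) (hN : ∀ i j, Sp (Nb F PP i j))
    (hHP : ∀ a i j, Sp (F.H a (PP i j))) (hA : ∀ a i, Sp (Aa a i)) (hom : ∀ a k, Sp (om a k))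
    (hat : ∀ y a f, ρ y (F.H a f) = ∑ i, ρ y (Aa a i) * ρ y (E i f) -
      ∑ k, ρ y (om a k) * ρ y (F.V k f)) (hPH : PH F PP) (hcon : G_CON) :
    (∃ (c1 : Fin 3 × Fin 3 → Fin 3 → Fin 3 → F.B) (c2 : Fin 3 × Fin 3 → Fin 3 × Fin 3 → F.B),
      (∀ i a j, Sp (c1 i a j)) ∧ (∀ i k, Sp (c2 i k)) ∧
      ∀ i, ∀ y, ρ y (F.D (Nb F PP i.1 i.2)) = ∑ a, ∑ j, ρ y (c1 i a j) *
        ρ y (F.H a (Bb F PP j)) + ∑ k, ρ y (c2 i k) * ρ y (Nb F PP k.1 k.2)) ∧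
    (∃ (c3 : Fin 3 → Fin 3 → Fin 3 → F.B) (c4 : Fin 3 → Fin 3 → F.B)
      (c5 : Fin 3 → Fin 3 × Fin 3 → F.B) (c6 : Fin 3 → Fin 3 → Fin 3 × Fin 3 → F.B),
      (∀ j a k, Sp (c3 j a k)) ∧ (∀ j k, Sp (c4 j k)) ∧ (∀ j k, Sp (c5 j k)) ∧
      (∀ j i k, Sp (c6 j i k)) ∧
      ∀ j, ∀ y, ρ y (F.D (Bb F PP j)) = ∑ a, ∑ i, ρ y (Aa a i) * ρ y (E i (F.H a (Bb F PP j))) +
        ∑ a, ∑ k, ρ y (c3 j a k) * ρ y (F.H a (Bb F PP k)) + ∑ k, ρ y (c4 j k) * ρ y (Bb F PP k) +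
        ∑ k, ρ y (c5 j k) * ρ y (Nb F PP k.1 k.2) +
        ∑ i, ∑ k, ρ y (c6 j i k) * ρ y (E i (Nb F PP k.1 k.2))) ∧
    (∃ c7 : Fin 3 → Fin 3 → Fin 3 → F.B, (∀ a j k, Sp (c7 a j k)) ∧
      ∀ a j, ∀ y, ρ y (F.H a (Bb F PP j)) = ∑ i, ρ y (Aa a i) * ρ y (E i (Bb F PP j)) +
        ∑ k, ρ y (c7 a j k) * ρ y (Bb F PP k)) := by
  let 𝒮 : Subalgebra ℝ F.B :=
    { carrier := {f | Sp f}
      mul_mem' := fun {f g} hf hg => smul f g hf hg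
      add_mem' := fun {f g} hf hg => sadd f g hf hg
      algebraMap_mem' := salg }
  let ρ' : Y → F.B →ₐ[ℝ] ℝ := fun y =>
    { toFun := ρ y
      map_one' := r1 y
      map_mul' := rmul y
      map_zero' := r0 y
      map_add' := radd y
      commutes' := ralg y }
  exact alg (𝒮 := 𝒮) (ρ := ρ') (E := E) hP hN hHP hA hom hat hPH hcon

end Pool.Agent.Helper50.RI
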