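import Pool.Agent.Helper50.RI.CQAlg
import Pool.Agent.Helper93.RF.C8

/-!
# Project RF, packet CQ: auxiliary facts
-/

namespace Pool.Agent.Helper50.RI

open Set Filter Topology Pool.Agent.Helper36.RS Pool.Agent.Helper36.RI Pool.Agent.Helper73.RF
open Pool.Agent.Helper47.RF hiding eps
open scoped ContDiff

theorem c8 : Goal_C8 := Pool.Agent.Helper93.RF.C8.goal_C8 c1 c2

/-! ### membership in a subalgebra -/

section gen

variable {𝒜 : Type} [CommRing 𝒜] [Algebra ℝ 𝒜] {E : Fin 3 → Derivation ℝ 𝒜 𝒜}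
  {A θ P : Fin 3 → Fin 3 → 𝒜} {S : Subalgebra ℝ 𝒜}

theorem Fd_mem (hE : ∀ i, ∀ f ∈ S, E i f ∈ S) (hA : ∀ a i, A a i ∈ S) (a : Fin 3) {f : 𝒜}
    (hf : f ∈ S) : FR.Fd E A a f ∈ S :=
  Subalgebra.sum_mem _ fun _ _ => Subalgebra.mul_mem _ (hA _ _) (hE _ _ hf)

theorem C_mem (hE : ∀ i, ∀ f ∈ S, E i f ∈ S) (hA : ∀ a i, A a i ∈ S) (ht : ∀ i a, θ i a ∈ S)
    (a b c : Fin 3) : FR.C E A θ a b c ∈ S :=
  Subalgebra.sum_mem _ fun _ _ => Subalgebra.mul_mem _ (Subalgebra.add_mem _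
    (Subalgebra.sub_mem _ (Fd_mem hE hA _ (hA _ _)) (Fd_mem hE hA _ (hA _ _)))
    (Subalgebra.smul_mem _ (Subalgebra.sum_mem _ fun _ _ => Subalgebra.sum_mem _ fun _ _ =>
      Subalgebra.smul_mem _ (Subalgebra.mul_mem _ (hA _ _) (hA _ _)) _) _)) (ht _ _)

theorem Gam_mem (hE : ∀ i, ∀ f ∈ S, E i f ∈ S) (hA : ∀ a i, A a i ∈ S) (ht : ∀ i a, θ i a ∈ S)
    (a b c : Fin 3) : FR.Gam E A θ a b c ∈ S :=
  Subalgebra.smul_mem _ (Subalgebra.add_mem _ (Subalgebra.sub_mem _ (C_mem hE hA ht _ _ _)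
    (C_mem hE hA ht _ _ _)) (C_mem hE hA ht _ _ _)) _

theorem nab_mem (hE : ∀ i, ∀ f ∈ S, E i f ∈ S) (hA : ∀ a i, A a i ∈ S) (ht : ∀ i a, θ i a ∈ S)
    (hP : ∀ a b, P a b ∈ S) (c a b : Fin 3) : nab E A θ P c a b ∈ S :=
  Subalgebra.sub_mem _ (Subalgebra.sub_mem _ (Fd_mem hE hA _ (hP _ _))
    (Subalgebra.sum_mem _ fun _ _ => Subalgebra.mul_mem _ (Gam_mem hE hA ht _ _ _) (hP _ _)))
    (Subalgebra.sum_mem _ fun _ _ => Subalgebra.mul_mem _ (Gam_mem hE hA ht _ _ _) (hP _ _))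

theorem lapF_mem (hE : ∀ i, ∀ f ∈ S, E i f ∈ S) (hA : ∀ a i, A a i ∈ S) (ht : ∀ i a, θ i a ∈ S)
    (hP : ∀ a b, P a b ∈ S) (a b : Fin 3) : lapF E A θ P a b ∈ S := by
  have hn := nab_mem hE hA ht hP
  have hG := Gam_mem hE hA ht
  exact Subalgebra.sum_mem _ fun _ _ => Subalgebra.sub_mem _ (Subalgebra.sub_mem _
    (Subalgebra.sub_mem _ (Fd_mem hE hA _ (hn _ _ _))
    (Subalgebra.sum_mem _ fun _ _ => Subalgebra.mul_mem _ (hG _ _ _) (hn _ _ _)))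
    (Subalgebra.sum_mem _ fun _ _ => Subalgebra.mul_mem _ (hG _ _ _) (hn _ _ _)))
    (Subalgebra.sum_mem _ fun _ _ => Subalgebra.mul_mem _ (hG _ _ _) (hn _ _ _))

theorem trP_mem (hP : ∀ a b, P a b ∈ S) : trP P ∈ S := Subalgebra.sum_mem _ fun _ _ => hP _ _

theorem Sf_mem (hP : ∀ a b, P a b ∈ S) (a b : Fin 3) : Sf P a b ∈ S := by
  refine Subalgebra.sub_mem _ ?_ (hP _ _)
  split_ifs
  · exact trP_mem hP
  · exact Subalgebra.zero_mem _

theorem QP_mem (hP : ∀ a b, P a b ∈ S) (a b : Fin 3) : QP P a b ∈ S := by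
  refine Subalgebra.add_mem _ (Subalgebra.sub_mem _ (Subalgebra.smul_mem _
    (Subalgebra.sum_mem _ fun _ _ => Subalgebra.mul_mem _ (hP _ _) (hP _ _)) _)
    (Subalgebra.smul_mem _ (Subalgebra.mul_mem _ (trP_mem hP) (hP _ _)) _)) ?_
  split_ifs
  · exact Subalgebra.sub_mem _ (Subalgebra.pow_mem _ (trP_mem hP) _)
      (Subalgebra.sum_mem _ fun _ _ => Subalgebra.sum_mem _ fun _ _ =>
        Subalgebra.pow_mem _ (hP _ _) _)
  · exact Subalgebra.zero_mem _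

theorem FPf_mem (hE : ∀ i, ∀ f ∈ S, E i f ∈ S) (hA : ∀ a i, A a i ∈ S) (ht : ∀ i a, θ i a ∈ S)
    (hP : ∀ a b, P a b ∈ S) (a b : Fin 3) : FPf E A θ P a b ∈ S :=
  Subalgebra.add_mem _ (lapF_mem hE hA ht hP _ _) (QP_mem hP _ _)

end gen

/-! ### smooth families of elements of `XS` -/

/-- a smooth family on `[0, τ]` -/
def SmC (τ : ℝ) (F : ℝ → XS) : Prop := SmFam (Icc 0 τ) (fun t => (F t).1)

section smc

variable {τ : ℝ} {F G : ℝ → XS}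

theorem SmC.add (hF : SmC τ F) (hG : SmC τ G) : SmC τ (fun t => F t + G t) :=
  (c8 _).2.1 _ _ hF hG

theorem SmC.sub (hF : SmC τ F) (hG : SmC τ G) : SmC τ (fun t => F t - G t) :=
  (c8 _).2.2.1 _ _ hF hG

theorem SmC.mul (hF : SmC τ F) (hG : SmC τ G) : SmC τ (fun t => F t * G t) :=
  (c8 _).2.2.2.1 _ _ hF hG

theorem SmC.smul (c : ℝ) (hF : SmC τ F) : SmC τ (fun t => c • F t) :=
  (c8 _).2.2.2.1 _ _ ((c8 _).1 (fun _ => c) continuousOn_const) hF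

theorem SmC.zero : SmC τ (fun _ => 0) := (c8 _).1 (fun _ => 0) continuousOn_const

theorem SmC.der (i : Fin 3) (hF : SmC τ F) : SmC τ (fun t => Ed i (F t)) :=
  (c8 _).2.2.2.2.2.1 _ i hF

theorem SmC.sum {F : Fin 3 → ℝ → XS} (hF : ∀ i, SmC τ (F i)) :
    SmC τ (fun t => ∑ i, F i t) := by
  simp only [Fin.sum_univ_three]
  exact ((hF 0).add (hF 1)).add (hF 2)

variable {A θ P : ℝ → Fin 3 → Fin 3 → XS}

theorem SmC.Fd (hA : ∀ a i, SmC τ (fun t => A t a i)) (hF : SmC τ F) (a : Fin 3) :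
    SmC τ (fun t => FR.Fd Ed (A t) a (F t)) :=
  SmC.sum (F := fun i t => A t a i * Ed i (F t)) fun i => (hA a i).mul (hF.der i)

theorem SmC.C (hA : ∀ a i, SmC τ (fun t => A t a i)) (ht : ∀ a i, SmC τ (fun t => θ t a i))
    (a b c : Fin 3) : SmC τ (fun t => FR.C Ed (A t) (θ t) a b c) := by
  refine SmC.sum (F := fun j t => (FR.Fd Ed (A t) a (A t b j) - FR.Fd Ed (A t) b (A t a j)
    + (2 : ℝ) • ∑ i, ∑ k, eps i k j • (A t a i * A t b k)) * θ t j c) fun j => ?_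
  have h1 : SmC τ (fun t => FR.Fd Ed (A t) a (A t b j)) := SmC.Fd hA (hA b j) a
  have h2 : SmC τ (fun t => FR.Fd Ed (A t) b (A t a j)) := SmC.Fd hA (hA a j) b
  have h3 : SmC τ (fun t => ∑ i, ∑ k, eps i k j • (A t a i * A t b k)) :=
    SmC.sum (F := fun i t => ∑ k, eps i k j • (A t a i * A t b k)) fun i =>
      SmC.sum (F := fun k t => eps i k j • (A t a i * A t b k)) fun k =>
        ((hA a i).mul (hA b k)).smul _
  exact ((h1.sub h2).add (h3.smul 2)).mul (ht j c)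

theorem SmC.Gam (hA : ∀ a i, SmC τ (fun t => A t a i)) (ht : ∀ a i, SmC τ (fun t => θ t a i))
    (a b c : Fin 3) : SmC τ (fun t => FR.Gam Ed (A t) (θ t) a b c) :=
  (((SmC.C hA ht a b c).sub (SmC.C hA ht b c a)).add (SmC.C hA ht c a b)).smul _

theorem SmC.om (hA : ∀ a i, SmC τ (fun t => A t a i)) (ht : ∀ a i, SmC τ (fun t => θ t a i))
    (a k : Fin 3) : SmC τ (fun t => FR.om Ed (A t) (θ t) a k) :=
  (SmC.sum (F := fun b t => ∑ c, eps k b c • FR.Gam Ed (A t) (θ t) a b c) fun b =>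
    SmC.sum (F := fun c t => eps k b c • FR.Gam Ed (A t) (θ t) a b c) fun c =>
      (SmC.Gam hA ht a b c).smul _).smul _

theorem SmC.Om (hA : ∀ a i, SmC τ (fun t => A t a i)) (ht : ∀ a i, SmC τ (fun t => θ t a i))
    (c d k : Fin 3) : SmC τ (fun t => FR.Om Ed (A t) (θ t) c d k) := by
  have ho := SmC.om hA ht
  have h1 : SmC τ (fun t => FR.Fd Ed (A t) c (FR.om Ed (A t) (θ t) d k)) := SmC.Fd hA (ho d k) c
  have h2 : SmC τ (fun t => FR.Fd Ed (A t) d (FR.om Ed (A t) (θ t) c k)) := SmC.Fd hA (ho c k) d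
  have h3 : SmC τ (fun t => ∑ l, ∑ m, eps l m k • (FR.om Ed (A t) (θ t) c l *
      FR.om Ed (A t) (θ t) d m)) :=
    SmC.sum (F := fun l t => ∑ m, eps l m k • (FR.om Ed (A t) (θ t) c l *
      FR.om Ed (A t) (θ t) d m)) fun l =>
      SmC.sum (F := fun m t => eps l m k • (FR.om Ed (A t) (θ t) c l *
        FR.om Ed (A t) (θ t) d m)) fun m => ((ho c l).mul (ho d m)).smul _
  have h4 : SmC τ (fun t => ∑ e, FR.C Ed (A t) (θ t) c d e * FR.om Ed (A t) (θ t) e k) :=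
    SmC.sum (F := fun e t => FR.C Ed (A t) (θ t) c d e * FR.om Ed (A t) (θ t) e k) fun e =>
      (SmC.C hA ht c d e).mul (ho e k)
  exact ((h1.sub h2).add h3).sub h4

theorem SmC.N (hA : ∀ a i, SmC τ (fun t => A t a i)) (ht : ∀ a i, SmC τ (fun t => θ t a i))
    (l k : Fin 3) : SmC τ (fun t => FR.N Ed (A t) (θ t) l k) :=
  (SmC.sum (F := fun c t => ∑ d, eps c d l • FR.Om Ed (A t) (θ t) c d k) fun c =>
    SmC.sum (F := fun d t => eps c d l • FR.Om Ed (A t) (θ t) c d k) fun d =>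
      (SmC.Om hA ht c d k).smul _).smul _

theorem SmC.nab (hA : ∀ a i, SmC τ (fun t => A t a i)) (ht : ∀ a i, SmC τ (fun t => θ t a i))
    (hP : ∀ a i, SmC τ (fun t => P t a i)) (c a b : Fin 3) :
    SmC τ (fun t => nab Ed (A t) (θ t) (P t) c a b) := by
  have h1 : SmC τ (fun t => FR.Fd Ed (A t) c (P t a b)) := SmC.Fd hA (hP a b) c
  have h2 : SmC τ (fun t => ∑ d, FR.Gam Ed (A t) (θ t) c a d * P t d b) :=
    SmC.sum (F := fun d t => FR.Gam Ed (A t) (θ t) c a d * P t d b) fun d =>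
      (SmC.Gam hA ht c a d).mul (hP d b)
  have h3 : SmC τ (fun t => ∑ d, FR.Gam Ed (A t) (θ t) c b d * P t a d) :=
    SmC.sum (F := fun d t => FR.Gam Ed (A t) (θ t) c b d * P t a d) fun d =>
      (SmC.Gam hA ht c b d).mul (hP a d)
  exact (h1.sub h2).sub h3

end smc

/-! ### compactness -/

theorem scale {f : HH → ℝ} (hf : Hom0 f) {x : HH} (hx : x ≠ 0) :
    ∃ y ∈ Metric.sphere (0 : HH) 1, f x = f y := by
  have hn : 0 < ‖x‖ := norm_pos_iff.2 hx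
  refine ⟨‖x‖⁻¹ • x, ?_, ?_⟩
  · rw [mem_sphere_zero_iff_norm, norm_smul, norm_inv, norm_norm, inv_mul_cancel₀ hn.ne']
  · rw [hf _ _ (inv_pos.2 hn)]

theorem sphere_sub : Metric.sphere (0 : HH) 1 ⊆ {0}ᶜ := fun x hx h => by
  rw [mem_sphere_zero_iff_norm, mem_singleton_iff.1 h, norm_zero] at hx
  exact zero_ne_one hx

theorem fam_bdd {τ : ℝ} {g : ℝ → HH → ℝ} (hg : SmFam (Icc 0 τ) g) :
    ∃ K, ∀ t ∈ Icc 0 τ, ∀ x ≠ 0, |g t x| ≤ K := by
  have hK : IsCompact (Icc (0 : ℝ) τ ×ˢ Metric.sphere (0 : HH) 1) :=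
    isCompact_Icc.prod (isCompact_sphere _ _)
  obtain ⟨K, hK⟩ := hK.exists_bound_of_continuousOn
    ((hg.cont []).mono (prod_mono_right sphere_sub))
  refine ⟨K, fun t ht x hx => ?_⟩
  obtain ⟨y, hy, h⟩ := scale (hg.sm t ht).hom hx
  rw [h]
  exact hK (t, y) ⟨ht, hy⟩

theorem fam_small {τ : ℝ} (hτ : 0 < τ) {g : ℝ → HH → ℝ} (hg : SmFam (Icc 0 τ) g)
    (h0 : ∀ x ≠ 0, g 0 x = 0) {δ : ℝ} (hδ : 0 < δ) :
    ∃ η > 0, ∀ t ∈ Ioo 0 τ, t < η → ∀ x ≠ 0, |g t x| ≤ δ := by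
  have hK : IsCompact (Icc (0 : ℝ) τ ×ˢ Metric.sphere (0 : HH) 1) :=
    isCompact_Icc.prod (isCompact_sphere _ _)
  have hu := hK.uniformContinuousOn_of_continuous
    ((hg.cont []).mono (prod_mono_right sphere_sub))
  obtain ⟨η, hη, h⟩ := Metric.uniformContinuousOn_iff.1 hu δ hδ
  refine ⟨η, hη, fun t ht htη x hx => ?_⟩
  obtain ⟨y, hy, h1⟩ := scale (hg.sm t (Ioo_subset_Icc_self ht)).hom hx
  rw [h1]
  have h2 := h (t, y) ⟨Ioo_subset_Icc_self ht, hy⟩ (0, y) ⟨left_mem_Icc.2 hτ.le, hy⟩ (by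
    rw [Prod.dist_eq, dist_self, max_eq_left dist_nonneg, Real.dist_eq, sub_zero,
      abs_of_pos ht.1]
    exact htη)
  change dist (g t y) (g 0 y) < δ at h2
  rw [h0 y (sphere_sub hy), Real.dist_eq, sub_zero] at h2
  exact h2.le

/-- locality of `E` -/
theorem E_congr {f g : HH → ℝ} (h : ∀ x ≠ 0, f x = g x) (i : Fin 3) {x : HH} (hx : x ≠ 0) :
    E i f x = E i g x := by
  have he : f =ᶠ[𝓝 x] g := by
    filter_upwards [isOpen_compl_singleton.mem_nhds hx] with y hy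
    exact h y hy
  rw [E, E, he.fderiv_eq]

theorem nab_congr {A θ P P' : Fin 3 → Fin 3 → XS} (h : ∀ a b, ∀ x ≠ 0, (P a b).1 x = (P' a b).1 x)
    (c a b : Fin 3) {x : HH} (hx : x ≠ 0) :
    (nab Ed A θ P c a b).1 x = (nab Ed A θ P' c a b).1 x := by
  have hE : ∀ i a b, (Ed i (P a b)).1 x = (Ed i (P' a b)).1 x := fun i a b => E_congr (h a b) i hx
  have hh : ∀ a b, (P a b).1 x = (P' a b).1 x := fun a b => h a b x hx
  simp only [nab, FR.Fd, Fin.sum_univ_three]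
  simp only [Subalgebra.coe_sub, Subalgebra.coe_add, Subalgebra.coe_mul, Pi.sub_apply,
    Pi.add_apply, Pi.mul_apply, hE, hh]

end Pool.Agent.Helper50.RI
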